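import Pool.Agent.UL6.Stmts
import Pool.Agent.Helper23_UL3.PLN
import Pool.Agent.Helper77_UL3.PAA
import Pool.Agent.Helper3_UL3.PAB
import Pool.Agent.Helper75_UL3.PAC

/-!
# Row GCY of squad UL6 (MP_c7c9bf_co): the cylinder-like frusta
-/

set_option autoImplicit false

namespace Pool.Agent.UL6.H59

open MeasureTheory Set Pool.Agent.UL3 Pool.Agent.UL4 Pool.Agent.UL5

theorem int_neg {C : Set (ℝ × ℝ)} (h : PB C) {x : ℝ × ℝ} (hx : x ∈ interior C) :
    -x ∈ interior C := by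
  have h1 : (fun y : ℝ × ℝ => -y) ⁻¹' interior C ⊆ interior C := by
    refine interior_maximal ?_ (isOpen_interior.preimage continuous_neg)
    intro y hy
    have h2 := h.sym _ (interior_subset hy)
    rwa [neg_neg] at h2
  apply h1
  show - -x ∈ interior C
  rwa [neg_neg]

theorem int_smul {C : Set (ℝ × ℝ)} (h : PB C) {x : ℝ × ℝ} (hx : x ∈ interior C) {t : ℝ}
    (h0 : 0 ≤ t) (h1 : t ≤ 1) : t • x ∈ interior C := by
  have h2 := h.cvx.interior hx h.zero_mem h0 (sub_nonneg.2 h1) (by ring)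
  rwa [smul_zero, add_zero] at h2

theorem sum_up (a b : ℝ × ℝ) (n : Fin 3 → ℤ) :
    (∑ i, (n i : ℝ) • (![up a 0, up b 0, up 0 1] : Fin 3 → E3) i) =
      up ((n 0 : ℝ) • a + (n 1 : ℝ) • b) (n 2) := by
  rw [Fin.sum_univ_three]
  simp only [Matrix.cons_val_zero, Matrix.cons_val_one, Matrix.cons_val_two, Matrix.head_cons,
    Matrix.tail_cons, Matrix.cons_val]
  rw [up_smul, up_smul, up_smul, up_add, up_add]
  congr 1
  · rw [smul_zero, add_zero]
  · ring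

theorem dt_up (a b : ℝ × ℝ) (h : 0 < cr a b) : dt ![up a 0, up b 0, up 0 1] = cr a b := by
  unfold dt
  rw [Matrix.det_fin_three]
  simp only [Matrix.of_apply, Matrix.cons_val_zero, Matrix.cons_val_one, Matrix.cons_val_two,
    Matrix.head_cons, Matrix.tail_cons, Matrix.cons_val, up_zero, up_one, up_two,
    Prod.fst_zero, Prod.snd_zero]
  have e : a.1 * b.2 * 1 - a.1 * 0 * 0 - a.2 * b.1 * 1 + a.2 * 0 * 0 + 0 * b.1 * 0 -
      0 * b.2 * 0 = cr a b := by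
    unfold cr
    ring
  rw [e, abs_of_pos h]

theorem gcy (fgv : FgvStmt) (fgi : FgiStmt) : GcyStmt := by
  intro C t hC ht ht1
  have pln : PlnStmt := Pool.Agent.UL3.H23.pln Pool.Agent.UL3.H77.paa
    (Pool.Agent.UL3.H3.pab Pool.Agent.UL3.H77.paa) Pool.Agent.UL3.H75.pac
  obtain ⟨a, b, hadm, hab, har⟩ := pln C hC
  have hk0 : 0 ≤ 1 - t := by linarith
  have hk1 : (1 - t) * 1 ≤ 1 := by linarith
  have hV := (fgv C (1 - t) 1 hC hk0 one_pos hk1).2
  refine ⟨![up a 0, up b 0, up 0 1], up 0 1, ?_, ?_, ?_, ?_⟩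
  · rw [dt_up a b hab]
    exact hab
  · intro n hn
    rw [Set.disjoint_left]
    rintro y hy ⟨x, hx, hxy⟩
    have hxy' : x + (2 : ℝ) • ∑ i, (n i : ℝ) • (![up a 0, up b 0, up 0 1] : Fin 3 → E3) i = y :=
      hxy
    rw [sum_up, ← up_self x, up_smul, up_add] at hxy'
    rw [← up_self x] at hx
    rw [← hxy'] at hy
    obtain ⟨h1, h2, h3⟩ := fgi C (1 - t) 1 _ _ hC hk0 one_pos hk1 hx
    obtain ⟨h4, h5, h6⟩ := fgi C (1 - t) 1 _ _ hC hk0 one_pos hk1 hy
    have h7 : n 2 = 0 := by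
      have h8 : (n 2 : ℝ) < 1 := by linarith
      have h9 : (-1 : ℝ) < n 2 := by linarith
      have h10 : n 2 < 1 := by exact_mod_cast h8
      have h11 : -1 < n 2 := by exact_mod_cast h9
      omega
    rw [h7, Int.cast_zero, mul_zero, add_zero] at h6
    have hρ1 : 1 - (1 - t) * x 2 ≤ 1 := by
      have := mul_nonneg hk0 h1.le
      linarith
    have hρ0 : 0 < 1 - (1 - t) * x 2 := by
      have : (1 - t) * x 2 ≤ (1 - t) * 1 := mul_le_mul_of_nonneg_left h2.le hk0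
      linarith
    have h8 := hC.cvx.interior h6 (int_neg hC h3) (a := 1 / 2) (b := 1 / 2) (by norm_num)
      (by norm_num) (by norm_num)
    have h9 := int_smul hC h8 hρ0.le hρ1
    have h10 : (1 - (1 - t) * x 2) • ((1 / 2 : ℝ) • ((1 - (1 - t) * x 2)⁻¹ •
        ((x 0, x 1) + (2 : ℝ) • ((n 0 : ℝ) • a + (n 1 : ℝ) • b))) +
        (1 / 2 : ℝ) • -((1 - (1 - t) * x 2)⁻¹ • ((x 0, x 1) : ℝ × ℝ))) =
        (n 0 : ℝ) • a + (n 1 : ℝ) • b := by
      have h11 : (1 / 2 : ℝ) • ((1 - (1 - t) * x 2)⁻¹ •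
          (((x 0, x 1) : ℝ × ℝ) + (2 : ℝ) • ((n 0 : ℝ) • a + (n 1 : ℝ) • b))) +
          (1 / 2 : ℝ) • -((1 - (1 - t) * x 2)⁻¹ • ((x 0, x 1) : ℝ × ℝ)) =
          (1 - (1 - t) * x 2)⁻¹ • ((n 0 : ℝ) • a + (n 1 : ℝ) • b) := by
        module
      rw [h11, smul_smul, mul_inv_cancel₀ hρ0.ne', one_smul]
    rw [h10] at h9
    refine hadm (n 0) (n 1) ?_ h9
    by_contra hcon
    push Not at hcon
    apply hn
    funext i
    fin_cases i
    · exact hcon.1
    · exact hcon.2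
    · exact h7
  · intro n hcon
    rw [sum_up, up_add] at hcon
    obtain ⟨h1, h2, -⟩ := fgi C (1 - t) 1 _ _ hC hk0 one_pos hk1 hcon
    have h3 : (n 2 : ℝ) < 0 := by linarith
    have h4 : (-1 : ℝ) < n 2 := by linarith
    have h5 : n 2 < 0 := by exact_mod_cast h3
    have h6 : -1 < n 2 := by exact_mod_cast h4
    omega
  · rw [dt_up a b hab, hV]
    have h1 : (1732 / 1000 : ℝ) ≤ Real.sqrt 3 := Real.le_sqrt_of_sq_le (by norm_num)
    have h2 : 2 * (1732 / 1000) * cr a b ≤ ar C := by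
      have h3 : 2 * (1732 / 1000) * cr a b ≤ 2 * Real.sqrt 3 * cr a b :=
        mul_le_mul_of_nonneg_right (by linarith) hab.le
      exact h3.trans har
    have h3 : (8575 / 10000 : ℝ) ≤ 1 - (1 - t) * 1 ^ 2 + (1 - t) ^ 2 * 1 ^ 3 / 3 := by
      nlinarith
    have h4 : 0 ≤ ar C := by
      have : 0 ≤ 2 * (1732 / 1000) * cr a b := by positivity
      linarith
    calc 1481 / 500 * cr a b ≤ 8575 / 10000 * (2 * (1732 / 1000) * cr a b) := by nlinarith
      _ ≤ 8575 / 10000 * ar C := mul_le_mul_of_nonneg_left h2 (by norm_num)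
      _ ≤ (1 - (1 - t) * 1 ^ 2 + (1 - t) ^ 2 * 1 ^ 3 / 3) * ar C :=
        mul_le_mul_of_nonneg_right h3 h4

end Pool.Agent.UL6.H59
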