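import Pool.Agent.UL6.Stmts2
import Pool.Agent.Helper59_UL6.GCY
import Pool.Agent.Helper90_UL3.ADJ

/-!
# Row DCY of squad UL6 (MP_c7c9bf_co): the cylinder-like double frusta
-/

set_option autoImplicit false

namespace Pool.Agent.UL6.H59

open MeasureTheory Set Pool.Agent.UL3 Pool.Agent.UL4 Pool.Agent.UL5

theorem dcy (tdd' : TddStmt) : DcyStmt := by
  intro C t hC ht ht1
  have pln : PlnStmt := Pool.Agent.UL3.H23.pln Pool.Agent.UL3.H77.paa
    (Pool.Agent.UL3.H3.pab Pool.Agent.UL3.H77.paa) Pool.Agent.UL3.H75.pac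
  obtain ⟨a, b, hadm, hab, har⟩ := pln C hC
  obtain ⟨hSB, hV, hint⟩ := tdd' C t hC (by linarith) ht1
  refine ⟨![up a 0, up b 0, up 0 1], ?_, ?_, ?_⟩
  · rw [dt_up a b hab]
    exact hab
  · refine Pool.Agent.UL3.H90.adj (tdd C t) _ hSB ?_
    intro n hn hcon
    rw [sum_up] at hcon
    obtain ⟨h1, h2⟩ := hint _ _ hcon
    have h7 : n 2 = 0 := by
      have h8 := abs_lt.1 h1
      have h10 : n 2 < 1 := by exact_mod_cast h8.2
      have h11 : -1 < n 2 := by exact_mod_cast h8.1
      omega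
    rw [h7, Int.cast_zero, abs_zero, mul_zero, sub_zero, inv_one, one_smul] at h2
    refine hadm (n 0) (n 1) ?_ h2
    by_contra hcon'
    push Not at hcon'
    apply hn
    funext i
    fin_cases i
    · exact hcon'.1
    · exact hcon'.2
    · exact h7
  · rw [dt_up a b hab, hV]
    have h1 : (1732 / 1000 : ℝ) ≤ Real.sqrt 3 := Real.le_sqrt_of_sq_le (by norm_num)
    have h2 : 2 * (1732 / 1000) * cr a b ≤ ar C := by
      have h3 : 2 * (1732 / 1000) * cr a b ≤ 2 * Real.sqrt 3 * cr a b :=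
        mul_le_mul_of_nonneg_right (by linarith) hab.le
      exact h3.trans har
    have h3 : (17150 / 10000 : ℝ) ≤ 2 / 3 * (1 + t + t ^ 2) := by
      nlinarith
    have h4 : 0 ≤ ar C := by
      have : 0 ≤ 2 * (1732 / 1000) * cr a b := by positivity
      linarith
    calc 1481 / 250 * cr a b ≤ 17150 / 10000 * (2 * (1732 / 1000) * cr a b) := by nlinarith
      _ ≤ 17150 / 10000 * ar C := mul_le_mul_of_nonneg_left h2 (by norm_num)
      _ ≤ 2 / 3 * (1 + t + t ^ 2) * ar C :=
        mul_le_mul_of_nonneg_right h3 h4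

end Pool.Agent.UL6.H59
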